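import Pool.Agent.H65.NetMain

/-!
# Minimizing partitions of the Gauss plane whose interface is not a straight network

For every `n ≥ 8` there are areas `v` for which perimeter-minimizing partitions of the Gauss plane
exist, but the interface of no such partition is, up to `H¹`-null sets, a finite union of
half-lines and segments meeting in threes at 120 degrees.

Idea. One region has area `1 - Q(R)`, where `Q(R)` is the Gaussian mass of the half-plane
`{x₁ > R}`, and the other `n - 1 ≥ 7` regions have areas `Q(R) mⱼ` for fixed `mⱼ > 0`. Cutting the
half-plane `{x₁ > R}` into strips gives a partition of perimeter at most `g(R) + (n-1) Q(R)`,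
`g` the one-dimensional Gaussian density. The faces of a straight network meeting in threes at 120
degrees are convex. Either the network enters the disc of radius `R - 1`, and then it is too long;
or the face containing the origin belongs to the big region, has at most six neighbours (their
outer normals are pairwise at angle at least 60 degrees), and a calibration shows that the
perimeter is at least `(R - 2)(1 + min mⱼ) Q(R)`, which is too much when `R` is large.
-/

open MeasureTheory Pool.Agent.H65.Gauss in
/-- For every `n ≥ 8` there are areas `v` (positive, with sum `1`) such that perimeter-minimizing
partitions of the Gauss plane with these areas exist, and for no such partition is the interface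
equal, up to an `H¹`-null set, to a straight network. -/
theorem Pool.Agent.Results.MP_3699be_gt.NotStraight.result :
    ∀ n : ℕ, 8 ≤ n → ∃ v : Fin n → ℝ, (∀ i, 0 < v i) ∧ ∑ i, v i = 1 ∧
      (∃ E, IsMinimizing v E) ∧
      ∀ E, IsMinimizing v E →
        ¬ ∃ S, IsStraightNetwork S ∧ μH[1] (symmDiff (interface E) S) = 0 :=
  Pool.Agent.H65.Gauss.main
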